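import Pool.Agent.R472.GridKer

/-!
# Kernel dimensions of matrices with at most two terms in each column
-/

set_option autoImplicit false
set_option linter.unusedSectionVars false

namespace Pool.Agent.R719.GA

open Pool.Agent.R719.AT Pool.Agent.W649.ZL Pool.Agent.R472.Grid TH57.Thr.Ati Matrix

variable {G : Type} [Group G] {K L : Type} [Fintype K] [Fintype L] [DecidableEq K] [DecidableEq L]

theorem n1_mul_le (x y : MonoidAlgebra ℂ G) : n1 (x * y) ≤ n1 x * n1 y := by
  classical
  have hx : x = ∑ g ∈ x.coeff.support, MonoidAlgebra.single g (x.coeff g) := by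
    ext k
    rw [MonoidAlgebra.coeff_sum, Finsupp.finsetSum_apply]
    simp only [MonoidAlgebra.coeff_single, Finsupp.single_apply]
    rw [Finset.sum_ite_eq']
    split_ifs with h
    · rfl
    · exact Finsupp.notMem_support_iff.1 h
  have h1 : x * y = ∑ g ∈ x.coeff.support, MonoidAlgebra.single g (x.coeff g) * y := by
    conv_lhs => rw [hx]
    rw [Finset.sum_mul]
  rw [h1]
  refine (n1_sum_le _ _).trans (le_of_eq ?_)
  rw [Finset.sum_congr rfl fun g _ => n1_single_mul g (x.coeff g) y, ← Finset.sum_mul]
  rfl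

theorem st_add (x y : MonoidAlgebra ℂ G) : st (x + y) = st x + st y := by
  ext g
  rw [st_coeff, MonoidAlgebra.coeff_add, Finsupp.add_apply, map_add, MonoidAlgebra.coeff_add,
    Finsupp.add_apply, st_coeff, st_coeff]

/-- Matrices with entries of modulus one, in the weak sense needed, and column sums at most two. -/
theorem kap_cols2 (A : Matrix K L (MonoidAlgebra ℂ G)) (e : K → L → ℝ) (he0 : ∀ i j, 0 ≤ e i j)
    (hcol : ∀ j, ∑ i, e i j ≤ 2) (h1 : ∀ i j, (A i j * st (A i j)).coeff 1 = (e i j : ℂ))
    (h2 : ∀ i j, n1 (A i j) ≤ e i j) :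
    ∃ (n : ℕ) (H : Fin n → Subgroup G), n ≤ Fintype.card K ∧ (∀ i, Finite (H i)) ∧
      kap A = ∑ i, (Nat.card (H i) : ℝ)⁻¹ := by
  classical
  rw [← kap_mul_sta A]
  apply kap_formula (d := fun i => ∑ j, e i j)
  intro i
  constructor
  · rw [Matrix.mul_apply, MonoidAlgebra.coeff_sum, Finsupp.finsetSum_apply]
    push_cast
    refine Finset.sum_congr rfl fun j _ => ?_
    exact h1 i j
  · have hM : ∀ k, n1 ((A * sta A) i k) ≤ ∑ j, e i j * e k j := by
      intro k
      rw [Matrix.mul_apply]
      refine (n1_sum_le _ _).trans (Finset.sum_le_sum fun j _ => ?_)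
      change n1 (A i j * st (A k j)) ≤ _
      refine (n1_mul_le _ _).trans ?_
      rw [n1_st]
      exact mul_le_mul (h2 i j) (h2 k j) (n1_nonneg _) (he0 i j)
    refine (Finset.sum_le_sum fun k _ => hM k).trans ?_
    rw [Finset.sum_comm, Finset.mul_sum]
    refine Finset.sum_le_sum fun j _ => ?_
    rw [← Finset.mul_sum, mul_comm]
    exact mul_le_mul_of_nonneg_right (hcol j) (he0 i j)

/-- The squared norm of a component. -/
noncomputable def N2 (F : EE G K) (i : K) : ℝ := ∑' x : G, ‖F (x, i)‖ ^ 2

theorem summ (F : EE G K) (i : K) : Summable fun x : G => ‖F (x, i)‖ ^ 2 := by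
  have h := (lp.memℓp F).summable (by norm_num)
  have h2 : Summable fun u : G × K => ‖F u‖ ^ 2 := by
    refine h.congr fun u => ?_
    norm_num
  exact h2.comp_injective (i := fun x : G => (x, i)) fun x y hxy => (Prod.ext_iff.1 hxy).1

theorem N2_nonneg (F : EE G K) (i : K) : 0 ≤ N2 F i := tsum_nonneg fun _ => sq_nonneg _

theorem N2_eq_zero (F : EE G K) (i : K) : N2 F i = 0 ↔ ∀ x, F (x, i) = 0 := by
  constructor
  · intro h x
    have h1 := (summ F i).hasSum
    rw [show (∑' x : G, ‖F (x, i)‖ ^ 2) = 0 from h,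
      hasSum_zero_iff_of_nonneg fun g => sq_nonneg _] at h1
    have h2 := congrFun h1 x
    exact norm_eq_zero.1 (pow_eq_zero_iff two_ne_zero |>.1 h2)
  · intro h
    unfold N2
    simp [h]

theorem N2_shift (F : EE G K) (i : K) (g : G) : ∑' u : G, ‖F (g * u, i)‖ ^ 2 = N2 F i :=
  (Equiv.mulLeft g).tsum_eq fun x => ‖F (x, i)‖ ^ 2

/-- The relation between the norms of two components of an element of the kernel. -/
theorem N2_rel (F : EE G K) {a b : K} {g h : G} {c d : ℂ}
    (hF : ∀ u, c * F (g * u, a) + d * F (h * u, b) = 0) :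
    ‖c‖ ^ 2 * N2 F a = ‖d‖ ^ 2 * N2 F b := by
  have h1 : ∀ u, ‖c‖ ^ 2 * ‖F (g * u, a)‖ ^ 2 = ‖d‖ ^ 2 * ‖F (h * u, b)‖ ^ 2 := by
    intro u
    have h2 : c * F (g * u, a) = -(d * F (h * u, b)) := by linear_combination hF u
    have h3 := congrArg norm h2
    rw [norm_neg, norm_mul, norm_mul] at h3
    rw [← mul_pow, ← mul_pow, h3]
  rw [← N2_shift F a g, ← N2_shift F b h, ← tsum_mul_left, ← tsum_mul_left]
  exact tsum_congr h1

/-- Every column is of the form `c g e_a + d h e_b`. -/
def TwoTerms (A : Matrix K L (MonoidAlgebra ℂ G)) : Prop :=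
  ∀ j, ∃ (a b : K) (g h : G) (c d : ℂ), ∀ i, A i j =
    (if a = i then MonoidAlgebra.single g c else 0) + (if b = i then MonoidAlgebra.single h d else 0)

theorem cv_ite (p : Prop) [Decidable p] (g : G) (c : ℂ) (f : G → ℂ) (u : G) :
    cv (if p then MonoidAlgebra.single g c else 0) f u = if p then c * f (g * u) else 0 := by
  split_ifs
  · exact cv_single g c f u
  · exact cv_zero f u

theorem Rop_two (A : Matrix K L (MonoidAlgebra ℂ G)) (F : EE G K) (j : L) {a b : K} {g h : G}
    {c d : ℂ} (hA : ∀ i, A i j = (if a = i then MonoidAlgebra.single g c else 0) +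
      (if b = i then MonoidAlgebra.single h d else 0)) (u : G) :
    Rop A F (u, j) = c * F (g * u, a) + d * F (h * u, b) := by
  rw [Rop_apply]
  simp only [hA, cv_add, cv_ite]
  rw [Finset.sum_add_distrib, Finset.sum_ite_eq, Finset.sum_ite_eq]
  simp

theorem unit_coeff (g : G) {c : ℂ} (hc : ‖c‖ = 1) :
    ((MonoidAlgebra.single g c : MonoidAlgebra ℂ G) * st (MonoidAlgebra.single g c)).coeff 1 = 1 := by
  rw [st_single, MonoidAlgebra.single_mul_single, mul_inv_cancel, Complex.mul_conj,
    Complex.normSq_eq_norm_sq, hc]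
  simp

theorem cross_coeff {g h : G} (hgh : g ≠ h) (c d : ℂ) :
    ((MonoidAlgebra.single g c : MonoidAlgebra ℂ G) * st (MonoidAlgebra.single h d)).coeff 1 = 0 := by
  classical
  rw [st_single, MonoidAlgebra.single_mul_single, MonoidAlgebra.coeff_single, Finsupp.single_apply,
    if_neg]
  intro h1
  exact hgh (mul_inv_eq_one.1 h1)

theorem pair_coeff {g h : G} (hgh : g ≠ h) {c d : ℂ} (hc : ‖c‖ = 1) (hd : ‖d‖ = 1) :
    (((MonoidAlgebra.single g c : MonoidAlgebra ℂ G) + MonoidAlgebra.single h d) *
      st (MonoidAlgebra.single g c + MonoidAlgebra.single h d)).coeff 1 = 2 := by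
  rw [st_add, mul_add, add_mul, add_mul, MonoidAlgebra.coeff_add, MonoidAlgebra.coeff_add,
    MonoidAlgebra.coeff_add, Finsupp.add_apply, Finsupp.add_apply, Finsupp.add_apply,
    unit_coeff g hc, unit_coeff h hd, cross_coeff hgh, cross_coeff hgh.symm]
  norm_num

theorem zero_coeff : (((0 : MonoidAlgebra ℂ G)) * st 0).coeff 1 = 0 := by
  rw [zero_mul]; rfl

/-- **At most two terms in each column, arbitrary coefficients.** -/
theorem kap_two_terms (A : Matrix K L (MonoidAlgebra ℂ G)) (hA : TwoTerms A) :
    ∃ (n : ℕ) (H : Fin n → Subgroup G), n ≤ Fintype.card K ∧ (∀ i, Finite (H i)) ∧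
      kap A = ∑ i, (Nat.card (H i) : ℝ)⁻¹ := by
  classical
  choose a b g h c d hA using hA
  let bad : K → Prop := fun k => ∀ F : EE G K, Rop A F = 0 → ∀ x, F (x, k) = 0
  have hex : ∀ k, ∃ F : EE G K, Rop A F = 0 ∧ (¬ bad k → N2 F k ≠ 0) := by
    intro k
    by_cases hk : bad k
    · exact ⟨0, map_zero _, fun h => absurd hk h⟩
    · have hk' := hk
      simp only [bad] at hk'
      push Not at hk'
      obtain ⟨F, hF, x, hx⟩ := hk'
      exact ⟨F, hF, fun _ h0 => hx ((N2_eq_zero F k).1 h0 x)⟩
  choose Φ hΦ hΦ2 using hex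
  let q : K → ℝ := fun i => ∑ k, N2 (Φ k) i
  have hqb : ∀ i, ¬ bad i → 0 < q i := by
    intro i hi
    refine lt_of_lt_of_le (lt_of_le_of_ne (N2_nonneg (Φ i) i) (Ne.symm (hΦ2 i hi))) ?_
    exact Finset.single_le_sum (f := fun k => N2 (Φ k) i) (fun k _ => N2_nonneg _ _)
      (Finset.mem_univ i)
  have hqz : ∀ i, bad i → q i = 0 := by
    intro i hi
    exact Finset.sum_eq_zero fun k _ => (N2_eq_zero _ _).2 (hi (Φ k) (hΦ k))
  have hker : ∀ F : EE G K, Rop A F = 0 ↔
      ∀ j u, c j * F (g j * u, a j) + d j * F (h j * u, b j) = 0 := by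
    intro F
    constructor
    · intro h0 j u
      rw [← Rop_two A F j (hA j) u, h0]; rfl
    · intro h0
      ext ⟨u, j⟩
      rw [Rop_two A F j (hA j) u, h0 j u]; rfl
  have hrel : ∀ j, ‖c j‖ ^ 2 * q (a j) = ‖d j‖ ^ 2 * q (b j) := by
    intro j
    simp only [q, Finset.mul_sum]
    exact Finset.sum_congr rfl fun k _ => N2_rel (Φ k) ((hker _).1 (hΦ k) j)
  let p : K → ℝ := fun i => if bad i then 1 else Real.sqrt (q i)
  have hp : ∀ i, 0 < p i := by
    intro i
    simp only [p]
    split_ifs with hi
    · exact one_pos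
    · exact Real.sqrt_pos.2 (hqb i hi)
  let good : L → Prop := fun j => c j ≠ 0 ∧ d j ≠ 0 ∧ ¬ bad (a j) ∧ ¬ (a j = b j ∧ g j = h j)
  have hgb : ∀ j, c j ≠ 0 → ¬ bad (a j) → ¬ bad (b j) := by
    intro j hc ha hb
    have h1 := hrel j
    rw [hqz _ hb, mul_zero] at h1
    have h2 : 0 < ‖c j‖ ^ 2 * q (a j) :=
      mul_pos (pow_pos (norm_pos_iff.2 hc) 2) (hqb _ ha)
    linarith
  have hr : ∀ j, good j → ‖c j‖ * p (a j) = ‖d j‖ * p (b j) := by
    intro j hj
    have hb := hgb j hj.1 hj.2.2.1
    simp only [p]
    rw [if_neg hj.2.2.1, if_neg hb]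
    have h1 := congrArg Real.sqrt (hrel j)
    rwa [Real.sqrt_mul (sq_nonneg _), Real.sqrt_mul (sq_nonneg _), Real.sqrt_sq (norm_nonneg _),
      Real.sqrt_sq (norm_nonneg _)] at h1
  let B : Matrix K (L ⊕ K) (MonoidAlgebra ℂ G) := Matrix.of fun i s => Sum.elim
    (fun j => if good j then (if a j = i then MonoidAlgebra.single (g j) (c j / ‖c j‖) else 0) +
      (if b j = i then MonoidAlgebra.single (h j) (d j / ‖d j‖) else 0) else 0)
    (fun k => if bad k ∧ k = i then 1 else 0) s
  let D : Matrix K K (MonoidAlgebra ℂ G) :=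
    Matrix.of fun i k => if i = k then MonoidAlgebra.single 1 (((p i)⁻¹ : ℝ) : ℂ) else 0
  have hDa : ∀ (F : EE G K) u i, Rop D F (u, i) = (((p i)⁻¹ : ℝ) : ℂ) * F (u, i) := by
    intro F u i
    rw [Rop_apply]
    simp only [D, Matrix.of_apply, cv_ite, one_mul]
    rw [Finset.sum_ite_eq']
    simp
  have hpi : ∀ i, (((p i)⁻¹ : ℝ) : ℂ) ≠ 0 := fun i => by
    exact_mod_cast (inv_pos.2 (hp i)).ne'
  have hD : Function.Injective (Rop D) := by
    rw [injective_iff_map_eq_zero]
    intro F hF
    ext ⟨u, i⟩
    have h1 := hDa F u i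
    rw [hF] at h1
    have h2 : (((p i)⁻¹ : ℝ) : ℂ) * F (u, i) = 0 := h1.symm
    exact (mul_eq_zero.1 h2).resolve_left (hpi i)
  have hBl : ∀ (F : EE G K) u j, Rop B F (u, Sum.inl j) = if good j then
      c j / ‖c j‖ * F (g j * u, a j) + d j / ‖d j‖ * F (h j * u, b j) else 0 := by
    intro F u j
    by_cases hj : good j
    · rw [if_pos hj]
      refine Rop_two B F (Sum.inl j) (fun i => ?_) u
      simp only [B, Matrix.of_apply, Sum.elim_inl]
      rw [if_pos hj]
    · rw [if_neg hj, Rop_apply]
      refine Finset.sum_eq_zero fun i _ => ?_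
      simp only [B, Matrix.of_apply, Sum.elim_inl]
      rw [if_neg hj, cv_zero]
  have hBr : ∀ (F : EE G K) u k, Rop B F (u, Sum.inr k) = if bad k then F (u, k) else 0 := by
    intro F u k
    rw [Rop_apply, Finset.sum_eq_single k]
    · simp only [B, Matrix.of_apply, Sum.elim_inr, and_true]
      split_ifs
      · exact cv_one _ u
      · exact cv_zero _ u
    · intro i _ hi
      simp only [B, Matrix.of_apply, Sum.elim_inr]
      rw [if_neg fun h => hi h.2.symm, cv_zero]
    · intro h; exact absurd (Finset.mem_univ _) h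
  have hmain : ∀ F : EE G K, Rop A F = 0 ↔ Rop B (Rop D F) = 0 := by
    intro F
    have hval : ∀ j, good j → ∀ X Y : ℂ, c j / ‖c j‖ * ((((p (a j))⁻¹ : ℝ) : ℂ) * X) +
        d j / ‖d j‖ * ((((p (b j))⁻¹ : ℝ) : ℂ) * Y) =
        (((‖c j‖ * p (a j))⁻¹ : ℝ) : ℂ) * (c j * X + d j * Y) := by
      intro j hj X Y
      have h1 := hr j hj
      have hc : (‖c j‖ : ℂ) ≠ 0 := by exact_mod_cast norm_ne_zero_iff.2 hj.1
      have hd : (‖d j‖ : ℂ) ≠ 0 := by exact_mod_cast norm_ne_zero_iff.2 hj.2.1
      have hpa : (p (a j) : ℂ) ≠ 0 := by exact_mod_cast (hp _).ne'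
      have hpb : (p (b j) : ℂ) ≠ 0 := by exact_mod_cast (hp _).ne'
      have h2 : (‖c j‖ : ℂ) * p (a j) = ‖d j‖ * p (b j) := by exact_mod_cast h1
      have e1 : c j / ‖c j‖ * ((((p (a j))⁻¹ : ℝ) : ℂ) * X) =
          ((‖c j‖ : ℂ) * p (a j))⁻¹ * (c j * X) := by
        push_cast
        field_simp
      have e2 : d j / ‖d j‖ * ((((p (b j))⁻¹ : ℝ) : ℂ) * Y) =
          ((‖c j‖ : ℂ) * p (a j))⁻¹ * (d j * Y) := by
        rw [h2]
        push_cast
        field_simp
      rw [e1, e2, ← mul_add]
      push_cast
      rfl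
    have hcp : ∀ j, good j → (((‖c j‖ * p (a j))⁻¹ : ℝ) : ℂ) ≠ 0 := fun j hj => by
      exact_mod_cast (inv_pos.2 (mul_pos (norm_pos_iff.2 hj.1) (hp _))).ne'
    constructor
    · intro hF
      ext ⟨u, s⟩
      rcases s with j | k
      · rw [hBl]
        split_ifs with hj
        · rw [hDa, hDa, hval j hj, (hker F).1 hF j u, mul_zero]; rfl
        · rfl
      · rw [hBr]
        split_ifs with hk
        · rw [hDa, hk F hF u, mul_zero]; rfl
        · rfl
    · intro hF
      have hz : ∀ k, bad k → ∀ u, F (u, k) = 0 := by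
        intro k hk u
        have h1 := hBr (Rop D F) u k
        rw [hF, if_pos hk, hDa] at h1
        have h2 : (((p k)⁻¹ : ℝ) : ℂ) * F (u, k) = 0 := h1.symm
        exact (mul_eq_zero.1 h2).resolve_left (hpi k)
      rw [hker]
      intro j u
      by_cases hj : good j
      · have h1 := hBl (Rop D F) u j
        rw [hF, if_pos hj, hDa, hDa, hval j hj] at h1
        have h2 : (((‖c j‖ * p (a j))⁻¹ : ℝ) : ℂ) *
          (c j * F (g j * u, a j) + d j * F (h j * u, b j)) = 0 := h1.symm
        exact (mul_eq_zero.1 h2).resolve_left (hcp j hj)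
      · -- the column imposes no condition beyond the bad components
        have hA0 : c j = 0 ∨ bad (a j) ∨ (a j = b j ∧ g j = h j) ∨ d j = 0 := by
          by_contra hcon
          push Not at hcon
          exact hj ⟨hcon.1, hcon.2.2.2, hcon.2.1, fun h => hcon.2.2.1 h.1 h.2⟩
        have hbadof : ∀ (k : K) (z : ℂ) (y : G), z ≠ 0 →
            (∀ F : EE G K, Rop A F = 0 → ∀ u, z * F (y * u, k) = 0) → bad k := by
          intro k z y hz0 hall F' hF' x
          have h1 := hall F' hF' (y⁻¹ * x)
          rw [mul_inv_cancel_left] at h1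
          exact (mul_eq_zero.1 h1).resolve_left hz0
        rcases eq_or_ne (c j) 0 with hc | hc
        · rcases eq_or_ne (d j) 0 with hd | hd
          · rw [hc, hd]; ring
          · have hb : bad (b j) := hbadof (b j) (d j) (h j) hd fun F' hF' u => by
              have := (hker F').1 hF' j u
              rw [hc] at this
              linear_combination this
            rw [hc, hz _ hb]; ring
        · by_cases ha : bad (a j)
          · have hb : d j = 0 ∨ bad (b j) := by
              by_cases hd : d j = 0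
              · exact Or.inl hd
              · refine Or.inr (hbadof (b j) (d j) (h j) hd fun F' hF' u => ?_)
                have := (hker F').1 hF' j u
                rw [ha F' hF'] at this
                linear_combination this
            rcases hb with hb | hb
            · rw [hz _ ha, hb]; ring
            · rw [hz _ ha, hz _ hb]; ring
          · rcases eq_or_ne (d j) 0 with hd | hd
            · exfalso
              apply ha
              refine hbadof (a j) (c j) (g j) hc fun F' hF' u => ?_
              have := (hker F').1 hF' j u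
              rw [hd] at this
              linear_combination this
            · rcases hA0 with h1 | h1 | h1 | h1
              · exact absurd h1 hc
              · exact absurd h1 ha
              · -- both terms coincide
                by_cases hcd : c j + d j = 0
                · rw [← h1.1, ← h1.2]
                  linear_combination hcd * F (g j * u, a j)
                · exfalso
                  apply ha
                  refine hbadof (a j) (c j + d j) (g j) hcd fun F' hF' u => ?_
                  have := (hker F').1 hF' j u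
                  rw [← h1.1, ← h1.2] at this
                  linear_combination this
              · exact absurd h1 hd
  have hkap : kap A = kap B := by
    rw [← kap_mul_left D hD B]
    unfold kap
    have hs : LinearMap.ker (Rop A : EE G K →ₗ[ℂ] EE G L) =
        LinearMap.ker (Rop (D * B) : EE G K →ₗ[ℂ] EE G (L ⊕ K)) := by
      ext F
      have h1 : Rop (D * B) F = Rop B (Rop D F) := by rw [Rop_mul]; rfl
      constructor
      · intro hF
        change Rop (D * B) F = 0
        rw [h1]
        exact (hmain F).1 hF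
      · intro hF
        change Rop A F = 0
        rw [hmain F, ← h1]
        exact hF
    rw [hs]
  rw [hkap]
  let e : K → L ⊕ K → ℝ := fun i s => Sum.elim
    (fun j => if good j then (if a j = i then (1 : ℝ) else 0) + (if b j = i then 1 else 0) else 0)
    (fun k => if bad k ∧ k = i then 1 else 0) s
  have hcn : ∀ j, good j → ‖c j / (‖c j‖ : ℂ)‖ = 1 := fun j hj => by
    rw [norm_div, Complex.norm_real, norm_norm, div_self (norm_ne_zero_iff.2 hj.1)]
  have hdn : ∀ j, good j → ‖d j / (‖d j‖ : ℂ)‖ = 1 := fun j hj => by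
    rw [norm_div, Complex.norm_real, norm_norm, div_self (norm_ne_zero_iff.2 hj.2.1)]
  refine kap_cols2 B e ?_ ?_ ?_ ?_
  · intro i s
    rcases s with j | k
    · simp only [e, Sum.elim_inl]
      split_ifs <;> norm_num
    · simp only [e, Sum.elim_inr]
      split_ifs <;> norm_num
  · intro s
    rcases s with j | k
    · simp only [e, Sum.elim_inl]
      by_cases hj : good j
      · simp only [if_pos hj]
        rw [Finset.sum_add_distrib, Finset.sum_ite_eq, Finset.sum_ite_eq]
        simp
        norm_num
      · simp only [if_neg hj]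
        simp
    · simp only [e, Sum.elim_inr]
      by_cases hk : bad k
      · simp only [hk, true_and]
        rw [Finset.sum_ite_eq]
        simp
      · simp [hk]
  · intro i s
    rcases s with j | k
    · simp only [B, e, Matrix.of_apply, Sum.elim_inl]
      by_cases hj : good j
      · rw [if_pos hj, if_pos hj]
        by_cases h1 : a j = i
        · by_cases h2 : b j = i
          · rw [if_pos h1, if_pos h2, if_pos h1, if_pos h2,
              pair_coeff (fun h3 => hj.2.2.2 ⟨h1.trans h2.symm, h3⟩) (hcn j hj) (hdn j hj)]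
            norm_num
          · rw [if_pos h1, if_neg h2, if_pos h1, if_neg h2, add_zero, add_zero,
              unit_coeff _ (hcn j hj)]
            norm_num
        · by_cases h2 : b j = i
          · rw [if_neg h1, if_pos h2, if_neg h1, if_pos h2, zero_add, zero_add,
              unit_coeff _ (hdn j hj)]
            norm_num
          · rw [if_neg h1, if_neg h2, if_neg h1, if_neg h2, add_zero, add_zero, zero_coeff]
            norm_num
      · rw [if_neg hj, if_neg hj, zero_coeff]
        norm_num
    · simp only [B, e, Matrix.of_apply, Sum.elim_inr]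
      split_ifs
      · rw [MonoidAlgebra.one_def, unit_coeff _ (by simp)]
        norm_num
      · rw [zero_coeff]
        norm_num
  · intro i s
    rcases s with j | k
    · simp only [B, e, Matrix.of_apply, Sum.elim_inl]
      by_cases hj : good j
      · rw [if_pos hj, if_pos hj]
        refine (n1_add_le _ _).trans (add_le_add ?_ ?_)
        · split_ifs
          · rw [n1_single, hcn j hj]
          · rw [n1_zero]
        · split_ifs
          · rw [n1_single, hdn j hj]
          · rw [n1_zero]
      · rw [if_neg hj, if_neg hj, n1_zero]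
    · simp only [B, e, Matrix.of_apply, Sum.elim_inr]
      split_ifs
      · rw [MonoidAlgebra.one_def, n1_single, norm_one]
      · rw [n1_zero]

end Pool.Agent.R719.GA
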